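import Pool.Agent.Helper26.PP.Defs
import Pool.Agent.Helper87.DV.Density

/-!
# A positive proportion of the integral maps satisfies the cone condition
-/

set_option autoImplicit false

namespace Pool.Agent.Helper87.PP

open MvPolynomial
open Pool.Agent.Helper26.DV (VIdx vP coeff_vP vP_coeff coeff_vP_of_gt)
open Pool.Agent.Helper87.DV (vP_injective)
open Pool.Agent.Helper87.MQ (totalDegree_le_of_coeff coeff_eq_zero_of_gt)
open Pool.Agent.Helper26.PP (Cone ref kap eps kap_pos eps_pos ref_nonneg ref_le_one)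

/-- the integral maps of degree at most `d` with coefficients in `[-B, B]` -/
def zbox (m d B : ℕ) : Set (Fin (m + 1) → MvPolynomial (Fin (m + 1)) ℤ) :=
  {Φ | ∀ i, (Φ i).totalDegree ≤ d ∧ ∀ s, |coeff s (Φ i)| ≤ (B : ℤ)}

/-- the number of integers in an interval -/
theorem count_Icc {B : ℕ} {a e L : ℝ} (hL : L = B / 2) (ha0 : 0 ≤ a) (ha : a ≤ L) (he : 0 < e)
    (he1 : e ≤ 1) (hB : 2 / e ≤ B) :
    e / 6 * (2 * B + 1) ≤
      (((Finset.Icc (-(B : ℤ)) B).filter fun z : ℤ => |(z : ℝ) - a| ≤ e * L).card : ℝ) := by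
  classical
  have hB2 : 2 ≤ (B : ℝ) * e := by
    rw [div_le_iff₀ he] at hB
    exact hB
  have hBpos : (2 : ℝ) ≤ B := by
    have h1 : (B : ℝ) * e ≤ B * 1 := by gcongr
    linarith
  have hL1 : 1 ≤ L := by rw [hL]; linarith
  have hB3 : (B : ℝ) = 2 * L := by rw [hL]; ring
  set x : ℤ := ⌈a - e * L⌉ with hx
  set y : ℤ := ⌊a + e * L⌋ with hy
  have hx1 : (x : ℝ) < a - e * L + 1 := Int.ceil_lt_add_one _
  have hx2 : a - e * L ≤ x := Int.le_ceil _
  have hy1 : a + e * L - 1 < y := Int.sub_one_lt_floor _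
  have hy2 : (y : ℝ) ≤ a + e * L := Int.floor_le _
  have heL : e * L ≤ L := by nlinarith
  have hsub : Finset.Icc x y ⊆ (Finset.Icc (-(B : ℤ)) B).filter
      fun z : ℤ => |(z : ℝ) - a| ≤ e * L := by
    intro z hz
    rw [Finset.mem_Icc] at hz
    have h1 : (x : ℝ) ≤ z := by exact_mod_cast hz.1
    have h2 : (z : ℝ) ≤ y := by exact_mod_cast hz.2
    rw [Finset.mem_filter, Finset.mem_Icc]
    refine ⟨⟨?_, ?_⟩, ?_⟩
    · have h3 : (-(B : ℝ)) ≤ z := by
        rw [hB3]
        linarith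
      exact_mod_cast h3
    · have h3 : (z : ℝ) ≤ B := by
        rw [hB3]
        linarith
      exact_mod_cast h3
    · rw [abs_le]
      constructor <;> linarith
  have h1 := Finset.card_le_card hsub
  rw [Int.card_Icc] at h1
  have h2 : ((y + 1 - x : ℤ) : ℝ) ≤ (((Finset.Icc (-(B : ℤ)) B).filter
      fun z : ℤ => |(z : ℝ) - a| ≤ e * L).card : ℝ) := by
    have h3 : (y + 1 - x : ℤ) ≤ ((y + 1 - x).toNat : ℤ) := Int.self_le_toNat _
    calc ((y + 1 - x : ℤ) : ℝ) ≤ (((y + 1 - x).toNat : ℤ) : ℝ) := by exact_mod_cast h3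
      _ = ((y + 1 - x).toNat : ℝ) := by norm_cast
      _ ≤ _ := by exact_mod_cast h1
  refine le_trans ?_ h2
  push_cast
  have h3 : e * (B : ℝ) = 2 * (e * L) := by rw [hB3]; ring
  nlinarith

theorem zbox_eq (m d B : ℕ) : zbox m d B =
    (fun c => vP (w := fun _ => d) c) '' {c : VIdx m (fun _ => d) → ℤ |
      ∀ k, c k ∈ Finset.Icc (-(B : ℤ)) B} := by
  ext Φ
  constructor
  · intro h
    refine ⟨fun k => coeff (k.2 : Fin (m + 1) →₀ ℕ) (Φ k.1), fun k => ?_, ?_⟩
    · rw [Finset.mem_Icc, ← abs_le]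
      exact (h k.1).2 _
    · exact vP_coeff (w := fun _ => d) Φ fun i s hs => coeff_eq_zero_of_gt _ _ (h i).1 s hs
  · rintro ⟨c, hc, rfl⟩ i
    refine ⟨totalDegree_le_of_coeff _ _ fun s hs => coeff_vP_of_gt (w := fun _ => d) c i hs,
      fun s => ?_⟩
    by_cases hs : s.degree ≤ d
    · have h1 := coeff_vP (w := fun _ => d) c i ⟨s, hs⟩
      dsimp only at h1 ⊢
      rw [h1, abs_le, ← Finset.mem_Icc]
      exact hc _
    · dsimp only
      rw [coeff_vP_of_gt (w := fun _ => d) c i hs, abs_zero]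
      positivity

/-- **The count.** -/
theorem cone_count (m d : ℕ) (hd : 1 ≤ d) : ∃ c : ℝ, 0 < c ∧ ∃ B₀ : ℕ, ∀ B : ℕ, B₀ ≤ B →
    (zbox m d B).Finite ∧ c * ((zbox m d B).ncard : ℝ) ≤
      (({Φ ∈ zbox m d B | ∃ lam : ℝ, 0 < lam ∧ Cone m d (kap m d) (eps m d) lam
        fun i => map (Int.castRingHom ℝ) (Φ i)}).ncard : ℝ) := by
  classical
  set e : ℝ := min (eps m d) 1 with he
  have he0 : 0 < e := lt_min (eps_pos hd) one_pos
  have he1 : e ≤ 1 := min_le_right _ _
  have hee : e ≤ eps m d := min_le_left _ _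
  set n := Fintype.card (VIdx m fun _ => d) with hn
  refine ⟨(e / 6) ^ n, by positivity, max ⌈2 / e⌉₊ 1, fun B hB => ?_⟩
  have hB1 : 2 / e ≤ B := (Nat.le_ceil _).trans (by exact_mod_cast (le_max_left _ _).trans hB)
  have hBpos : (1 : ℝ) ≤ B := by exact_mod_cast (le_max_right _ _).trans hB
  set L : ℝ := B / 2 with hL
  have hLpos : 0 < L := by rw [hL]; linarith
  set I : VIdx m (fun _ => d) → Finset ℤ := fun k =>
    if (k.2 : Fin (m + 1) →₀ ℕ).degree = d then (Finset.Icc (-(B : ℤ)) B).filter fun z : ℤ =>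
      |(z : ℝ) - L * ref m d (kap m d) k.1 k.2| ≤ e * L
    else Finset.Icc (-(B : ℤ)) B with hI
  have hcardIcc : ((Finset.Icc (-(B : ℤ)) B).card : ℝ) = 2 * B + 1 := by
    rw [Int.card_Icc]
    have h1 : ((B : ℤ) + 1 - -(B : ℤ)).toNat = 2 * B + 1 := by omega
    rw [h1]
    push_cast
    ring
  have hIcard : ∀ k, e / 6 * (2 * B + 1) ≤ ((I k).card : ℝ) := by
    intro k
    simp only [hI]
    split_ifs with h
    · refine count_Icc hL (mul_nonneg hLpos.le (ref_nonneg _ _)) ?_ he0 he1 hB1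
      calc L * ref m d (kap m d) k.1 k.2 ≤ L * 1 := by
            gcongr
            exact ref_le_one hd _ _
        _ = L := mul_one L
    · rw [hcardIcc]
      nlinarith
  have hIsub : ∀ k, I k ⊆ Finset.Icc (-(B : ℤ)) B := by
    intro k
    simp only [hI]
    split_ifs
    · exact Finset.filter_subset _ _
    · exact Finset.Subset.refl _
  have hinj := vP_injective (m := m) (R := ℤ) (fun _ => d)
  have hset : {c : VIdx m (fun _ => d) → ℤ | ∀ k, c k ∈ Finset.Icc (-(B : ℤ)) B} =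
      (Fintype.piFinset fun _ : VIdx m (fun _ => d) => Finset.Icc (-(B : ℤ)) B : Set _) := by
    ext c
    simp only [Set.mem_setOf_eq, Finset.mem_coe, Fintype.mem_piFinset]
  have hfin : (zbox m d B).Finite := by
    rw [zbox_eq, hset]
    exact (Finset.finite_toSet _).image _
  have hcard : ((zbox m d B).ncard : ℝ) = (2 * B + 1) ^ n := by
    rw [zbox_eq, Set.ncard_image_of_injective _ hinj, hset, Set.ncard_coe_finset,
      Fintype.card_piFinset, Finset.prod_const, Finset.card_univ]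
    push_cast
    rw [hcardIcc]
  refine ⟨hfin, ?_⟩
  set T : Finset (VIdx m (fun _ => d) → ℤ) := Fintype.piFinset I with hT
  have hTcard : (e / 6) ^ n * ((zbox m d B).ncard : ℝ) ≤ (T.card : ℝ) := by
    rw [hcard, ← mul_pow, hT, Fintype.card_piFinset]
    push_cast
    calc (e / 6 * (2 * (B : ℝ) + 1)) ^ n = ∏ _k : VIdx m (fun _ => d), (e / 6 * (2 * B + 1)) := by
          rw [Finset.prod_const, Finset.card_univ]
      _ ≤ ∏ k, ((I k).card : ℝ) := Finset.prod_le_prod (fun k _ => by positivity)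
          fun k _ => hIcard k
  refine hTcard.trans ?_
  have h1 : (T.card : ℝ) = (((fun c : VIdx m (fun _ => d) → ℤ => vP c) ''
      (T : Set (VIdx m (fun _ => d) → ℤ))).ncard : ℝ) := by
    rw [Set.ncard_image_of_injective _ hinj, Set.ncard_coe_finset]
  rw [h1]
  refine Nat.cast_le.2 (Set.ncard_le_ncard ?_ (hfin.subset fun Φ hΦ => hΦ.1))
  rintro Φ ⟨c, hc, rfl⟩
  have hc1 : ∀ k, c k ∈ I k := by
    rw [Finset.mem_coe, hT, Fintype.mem_piFinset] at hc
    exact hc
  refine ⟨?_, L, hLpos, ?_⟩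
  · rw [zbox_eq]
    exact ⟨c, fun k => hIsub k (hc1 k), rfl⟩
  · intro i s hs
    have h2 := hc1 ⟨i, ⟨s, hs.le⟩⟩
    simp only [hI] at h2
    rw [if_pos hs, Finset.mem_filter] at h2
    have h3 := coeff_vP (w := fun _ => d) c i ⟨s, hs.le⟩
    dsimp only at h3 ⊢
    rw [coeff_map, h3]
    refine h2.2.trans ?_
    gcongr

end Pool.Agent.Helper87.PP
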