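import Pool.Agent.Helper26.PP.Int
import Pool.Agent.Helper87.MQ.Functional

/-!
# Positive proportion: totally real integral points
-/

set_option autoImplicit false

namespace Pool.Agent.Helper87.PP

open MvPolynomial
open Pool.Agent.Helper86.MQ (pm)
open Pool.Agent.Helper52.PP (EvPer)
open Pool.Agent.Helper26.PP (Cone kap eps real_main unbounded toCx iter_ofReal totalDegree_map_le')
open Pool.Agent.Helper87.MQ (cw eval_cw)

variable {m d : ℕ}

/-- an integral map over a ring -/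
noncomputable def mp (R : Type*) [CommRing R] (Φ : Fin (m + 1) → MvPolynomial (Fin (m + 1)) ℤ) :
    Fin (m + 1) → MvPolynomial (Fin (m + 1)) R := fun i => map (Int.castRingHom R) (Φ i)

theorem mp_hom {R S : Type*} [CommRing R] [CommRing S] (φ : R →+* S)
    (Φ : Fin (m + 1) → MvPolynomial (Fin (m + 1)) ℤ) (x : Fin (m + 1) → R) (n : ℕ) :
    (fun i => φ ((pm (mp R Φ))^[n] x i)) = (pm (mp S Φ))^[n] (fun i => φ (x i)) := by
  induction n with
  | zero => rfl
  | succ n ih =>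
    rw [Function.iterate_succ_apply', Function.iterate_succ_apply', ← ih]
    funext i
    rw [pm, pm, mp, mp, eval_map, eval_map, eval₂_comp_left]
    congr 1
    exact RingHom.ext_int _ _

/-- eventually periodic orbits -/
theorem evPer_orbit {X : Type*} (f : X → X) (x : X) {a b : ℕ} (hab : a < b)
    (heq : f^[a] x = f^[b] x) (P : X → Prop) : EvPer {n : ℕ | P (f^[n] x)} := by
  refine ⟨b - a, a, by omega, fun n hn => ?_⟩
  have h1 : f^[n + (b - a)] x = f^[n] x := by
    have h2 : n + (b - a) = (n - a) + b := by omega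
    have h3 : n = (n - a) + a := by omega
    rw [h2, Function.iterate_add_apply, ← heq, ← Function.iterate_add_apply, ← h3]
  simp only [Set.mem_ofPred_eq, h1]

/-- the values of an integral polynomial at integral elements are integral -/
theorem integral_iterate {K : Type*} [CommRing K] (Φ : Fin (m + 1) → MvPolynomial (Fin (m + 1)) ℤ)
    (x : Fin (m + 1) → K) (hx : ∀ i, IsIntegral ℤ (x i)) (n : ℕ) :
    ∀ i, IsIntegral ℤ ((pm (mp K Φ))^[n] x i) := by
  induction n with
  | zero => exact hx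
  | succ n ih =>
    intro i
    rw [Function.iterate_succ_apply', pm, mp, eval_map, eval₂_eq']
    refine IsIntegral.sum _ fun s _ => ?_
    refine IsIntegral.mul ?_ (IsIntegral.prod _ fun j _ => (ih j).pow _)
    rw [eq_intCast]
    exact isIntegral_intCast _

/-- **Totally real integral points.** -/
theorem tr_aps (hd : 2 ≤ d) (he : Even d) (Φ : Fin (m + 1) → MvPolynomial (Fin (m + 1)) ℤ)
    (deg : ∀ i, (Φ i).totalDegree ≤ d) {lam : ℝ} (hlam : 0 < lam)
    (hC : Cone m d (kap m d) (eps m d) lam fun i => map (Int.castRingHom ℝ) (Φ i))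
    (α : Fin (m + 1) → ℂ) (hint : ∀ i, IsIntegral ℤ (α i))
    (hreal' : ∀ i, ∀ z : ℂ, Polynomial.aeval z (minpoly ℚ (α i)) = 0 → z.im = 0)
    (V : Set (MvPolynomial (Fin (m + 1)) ℂ)) :
    ∃ T : Finset (ℕ × ℕ),
      {n : ℕ | ∀ G ∈ V, eval ((pm (mp ℂ Φ))^[n] α) G = 0} =
        {n : ℕ | ∃ t ∈ T, ∃ k : ℕ, n = t.1 + t.2 * k} := by
  classical
  set K := IntermediateField.adjoin ℚ (Set.range α) with hK
  haveI : FiniteDimensional ℚ K := by
    refine IntermediateField.finiteDimensional_adjoin ?_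
    rintro _ ⟨i, rfl⟩
    exact (hint i).tower_top
  haveI : NumberField K := ⟨⟩
  have hmem : ∀ i, α i ∈ K := fun i => IntermediateField.subset_adjoin _ _ ⟨i, rfl⟩
  set a : Fin (m + 1) → K := fun i => ⟨α i, hmem i⟩ with ha
  have haint : ∀ i, IsIntegral ℤ (a i) := fun i =>
    (isIntegral_algebraMap_iff (algebraMap K ℂ).injective).1 (hint i)
  have hconj : ∀ (σ : K →+* ℂ) i, (σ (a i)).im = 0 := by
    intro σ i
    apply hreal' i
    have h1 : minpoly ℚ (a i) = minpoly ℚ (α i) :=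
      (minpoly.algebraMap_eq (algebraMap K ℂ).injective (a i)).symm
    rw [← h1]
    have h2 : Polynomial.aeval (σ.toRatAlgHom (a i)) (minpoly ℚ (a i)) = 0 := by
      rw [Polynomial.aeval_algHom_apply, minpoly.aeval, map_zero]
    exact h2
  have degR : ∀ i, (map (Int.castRingHom ℝ) (Φ i)).totalDegree ≤ d := fun i =>
    (totalDegree_map_le' _ _).trans (deg i)
  obtain ⟨M₀, hmain⟩ := real_main hd he degR hlam hC
  set xr : (K →+* ℂ) → Fin (m + 1) → ℝ := fun σ i => (σ (a i)).re with hxr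
  have hxr' : ∀ σ i, ((xr σ i : ℝ) : ℂ) = σ (a i) := fun σ i =>
    Complex.ext (by simp [hxr]) (by simp [hconj σ i])
  set b : ℕ → Fin (m + 1) → K := fun n => (pm (mp K Φ))^[n] a with hb
  have hbσ : ∀ σ n i, σ (b n i) = (((pm (mp ℝ Φ))^[n] (xr σ) i : ℝ) : ℂ) := by
    intro σ n i
    have h1 := congrFun (mp_hom σ Φ a n) i
    have h2 := congrFun (mp_hom Complex.ofRealHom Φ (xr σ) n) i
    have h3 : (fun i => Complex.ofRealHom (xr σ i)) = fun i => σ (a i) := by
      funext i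
      exact hxr' σ i
    rw [h3] at h2
    exact h1.trans h2.symm
  have horb : ∀ n, (pm (mp ℂ Φ))^[n] α = fun i => algebraMap K ℂ (b n i) := fun n =>
    (mp_hom (algebraMap K ℂ) Φ a n).symm
  by_cases hbd : ∀ σ : K →+* ℂ, ∀ n i, |((pm (mp ℝ Φ))^[n] (xr σ)) i| ≤ M₀
  · have hfin : {x : K | IsIntegral ℤ x ∧ ∀ φ : K →+* ℂ, ‖φ x‖ ≤ M₀}.Finite :=
      NumberField.Embeddings.finite_of_norm_le K ℂ M₀
    have hmaps : Set.MapsTo b Set.univ
        (Set.univ.pi fun _ : Fin (m + 1) => {x : K | IsIntegral ℤ x ∧ ∀ φ : K →+* ℂ, ‖φ x‖ ≤ M₀}) := by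
      intro n _ i _
      refine ⟨integral_iterate Φ a haint n i, fun φ => ?_⟩
      rw [hbσ φ n i, Complex.norm_real, Real.norm_eq_abs]
      exact hbd φ n i
    obtain ⟨s, -, t, -, hst, h⟩ := Set.infinite_univ.exists_lt_map_eq_of_mapsTo hmaps
      (Set.Finite.pi fun _ => hfin)
    obtain ⟨T, hT⟩ := (evPer_orbit (pm (mp K Φ)) a hst h
      (fun x => ∀ G ∈ V, eval (fun i => algebraMap K ℂ (x i)) G = 0)).aps
    refine ⟨T, Eq.trans ?_ hT⟩
    ext n
    simp only [Set.mem_setOf_eq, horb]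
    rfl
  · push Not at hbd
    obtain ⟨σ, n₁, i₁, hσ⟩ := hbd
    rcases hmain (xr σ) with h | ⟨v, A, n₀, hvl, hA, hne, hlim, hinv, hF, hc, hinj, hreal⟩
    · exact absurd (h n₁ i₁) (not_le.2 hσ)
    · obtain ⟨T, hT⟩ := unbounded hd _ degR (xr σ) v A n₀ hvl hA hne hlim hinv hF hc
        hinj hreal {G' | ∃ F ∈ V, ∃ l : ℂ →ₗ[K] K, G' = map σ (cw l F)}
      refine ⟨T, Eq.trans ?_ hT⟩
      ext n
      simp only [Set.mem_setOf_eq, horb]
      have h1 : (pm (toCx fun i => map (Int.castRingHom ℝ) (Φ i)))^[n]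
          (fun i => ((xr σ i : ℝ) : ℂ)) = fun i => σ (b n i) := by
        rw [iter_ofReal]
        funext i
        exact (hbσ σ n i).symm
      rw [h1]
      have h2 : ∀ (F : MvPolynomial (Fin (m + 1)) ℂ) (l : ℂ →ₗ[K] K),
          eval (fun i => σ (b n i)) (map σ (cw l F)) =
            σ (l (eval (fun i => algebraMap K ℂ (b n i)) F)) := by
        intro F l
        rw [← eval_cw, eval_map]
        have h5 := MvPolynomial.eval₂_comp_left σ (RingHom.id _) (b n) (cw l F)
        rw [eval₂_id, RingHom.comp_id] at h5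
        exact h5.symm
      constructor
      · rintro h3 _ ⟨F, hF, l, rfl⟩
        rw [h2, h3 F hF, map_zero, map_zero]
      · intro h3 F hF
        rw [← Module.forall_dual_apply_eq_zero_iff K]
        intro l
        have h4 := h3 _ ⟨F, hF, l, rfl⟩
        rw [h2] at h4
        exact σ.injective (by rw [h4, map_zero])

/-- **Main theorem**, for all points whose coordinates are totally real algebraic integers. -/
theorem pp_main_tr (m : ℕ) {d : ℕ} (hd : 2 ≤ d) (he : Even d) :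
    ∃ c : ℝ, 0 < c ∧ ∃ B₀ : ℕ, ∀ B ≥ B₀, (zbox m d B).Finite ∧
      c * ((zbox m d B).ncard : ℝ) ≤
        (({Φ ∈ zbox m d B | ∀ α : Fin (m + 1) → ℂ,
          (∀ i, IsIntegral ℤ (α i) ∧
            ∀ z : ℂ, Polynomial.aeval z (minpoly ℚ (α i)) = 0 → z.im = 0) →
          ∀ V : Set (MvPolynomial (Fin (m + 1)) ℂ), ∃ T : Finset (ℕ × ℕ),
            {n : ℕ | ∀ G ∈ V, eval ((pm (mp ℂ Φ))^[n] α) G = 0} =
              {n : ℕ | ∃ t ∈ T, ∃ k : ℕ, n = t.1 + t.2 * k}}.ncard : ℕ) : ℝ) := by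
  obtain ⟨c, hc, B₀, hB⟩ := cone_count m d (by omega)
  refine ⟨c, hc, B₀, fun B hBB => ⟨(hB B hBB).1, (hB B hBB).2.trans (Nat.cast_le.2
    (Set.ncard_le_ncard ?_ ((hB B hBB).1.subset fun Φ hΦ => hΦ.1)))⟩⟩
  rintro Φ ⟨hΦ, lam, hlam, hC⟩
  exact ⟨hΦ, fun α hα V => tr_aps hd he Φ (fun i => (hΦ i).1) hlam hC α (fun i => (hα i).1)
    (fun i => (hα i).2) V⟩

end Pool.Agent.Helper87.PP
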